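import Mathlib
import Pool.Agent.N741.HB.Stm5
import Pool.Agent.N887.HC.Sol

/-! HK/K1: coordinates of the solutions in number fields of bounded degree, free exponents. -/

set_option autoImplicit false

namespace Pool.Agent.N999.HK

open Pool.Agent.N741.HC Pool.Agent.N741.HK Pool.Agent.N887.HC

/-- the homogenised equation -/
lemma hom_eq {K : Type} [Field K] {n P : ℕ} (y : Fin P → K) (z : K) (u : Fin n → ℤ) (v : ℤ)
    (e : Fin n → Fin P → ℕ) (e₀ : Fin P → ℕ) (r M D : ℕ) (hr : 1 ≤ r)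
    (hS : ∀ i, ∑ j, e i j + (r - 1) * ∑ j, e₀ j ≤ r * M)
    (h : ∑ i, (u i : K) * ∏ j, y j ^ e i j = (v : K) * (∏ j, y j ^ e₀ j) * z ^ r) :
    ∑ i, ((v ^ (r - 1) * u i : ℤ) : K) *
      ((D : K) ^ (r * M - (∑ j, e i j + (r - 1) * ∑ j, e₀ j)) *
        ∏ j, ((D : K) * y j) ^ (e i j + (r - 1) * e₀ j)) =
      ((D : K) ^ M * v * (∏ j, y j ^ e₀ j) * z) ^ r := by
  obtain ⟨q, rfl⟩ : ∃ q, r = q + 1 := ⟨r - 1, by omega⟩
  simp only [Nat.add_sub_cancel] at hS ⊢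
  have h1 : ∀ i, ((v ^ q * u i : ℤ) : K) *
      ((D : K) ^ ((q + 1) * M - (∑ j, e i j + q * ∑ j, e₀ j)) *
        ∏ j, ((D : K) * y j) ^ (e i j + q * e₀ j)) =
      ((D : K) ^ ((q + 1) * M) * (v : K) ^ q * (∏ j, y j ^ e₀ j) ^ q) *
        ((u i : K) * ∏ j, y j ^ e i j) := by
    intro i
    have h2 : ∏ j, ((D : K) * y j) ^ (e i j + q * e₀ j) =
        (D : K) ^ (∑ j, e i j + q * ∑ j, e₀ j) * ((∏ j, y j ^ e i j) * (∏ j, y j ^ e₀ j) ^ q) := by
      have h4 : (∏ j, y j ^ e₀ j) ^ q = ∏ j, y j ^ (q * e₀ j) := by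
        rw [← Finset.prod_pow]
        refine Finset.prod_congr rfl fun j _ => ?_
        rw [← pow_mul, mul_comm]
      have h5 : (D : K) ^ (∑ j, e i j + q * ∑ j, e₀ j) = ∏ j, (D : K) ^ (e i j + q * e₀ j) := by
        rw [Finset.prod_pow_eq_pow_sum, Finset.sum_add_distrib, Finset.mul_sum]
      rw [h4, h5, ← Finset.prod_mul_distrib, ← Finset.prod_mul_distrib]
      refine Finset.prod_congr rfl fun j _ => ?_
      rw [mul_pow, pow_add (y j)]
    rw [h2]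
    have h3 : (D : K) ^ ((q + 1) * M) = (D : K) ^ ((q + 1) * M - (∑ j, e i j + q * ∑ j, e₀ j)) *
        (D : K) ^ (∑ j, e i j + q * ∑ j, e₀ j) := by
      rw [← pow_add, Nat.sub_add_cancel (hS i)]
    rw [h3]
    push_cast
    ring
  rw [Finset.sum_congr rfl fun i _ => h1 i, ← Finset.mul_sum, h]
  ring

/-- size of a monomial -/
lemma prod_bound {P : ℕ} (x : Fin P → ℂ) (E : Fin P → ℕ) (B : ℝ) (hB : 1 ≤ B)
    (hx : ∀ j, ‖x j‖ ≤ B) (S : ℕ) (hS : ∑ j, E j ≤ S) : ‖∏ j, x j ^ E j‖ ≤ B ^ S := by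
  rw [norm_prod]
  calc ∏ j, ‖x j ^ E j‖ ≤ ∏ j, B ^ E j := by
        refine Finset.prod_le_prod (fun j _ => norm_nonneg _) fun j _ => ?_
        rw [norm_pow]
        exact pow_le_pow_left₀ (norm_nonneg _) (hx j) _
    _ = B ^ ∑ j, E j := Finset.prod_pow_eq_pow_sum _ _ _
    _ ≤ B ^ S := pow_le_pow_right₀ hB hS

theorem solP (h : S_code) : S_solP := by
  intro n P κ
  obtain ⟨A1, hC⟩ := h P κ
  obtain ⟨A2, hA2⟩ : ∃ A, A = κ + A1 + 1 := ⟨_, rfl⟩
  obtain ⟨A4, hA4⟩ : ∃ A, A = κ + A1 + A2 * κ := ⟨_, rfl⟩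
  obtain ⟨A5, hA5⟩ : ∃ A, A = A4 + 2 * A1 + n + 1 := ⟨_, rfl⟩
  obtain ⟨C, hCd⟩ : ∃ A, A = A5 * κ + 2 * A1 * κ + 2 * A1 := ⟨_, rfl⟩
  refine ⟨C, ?_⟩
  intro K _ _ σ Y y z u v e e₀ r M U hK hY hy hu hv hU hr heM he0M heq
  have hYr : (1 : ℝ) ≤ Y := by exact_mod_cast hY
  -- the family
  obtain ⟨k, K₀, α, mm, Dc, D₁, V, hk1, hk, hmem, hD0, hD10, hDb, hD1b, hmb, hVb, hroot, hlin, hV,
    hint⟩ := hC K Y y hK hY (fun j => (hy j).2)
  -- bounds in terms of `X = Y + 2`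
  obtain ⟨X, hXd⟩ : ∃ X : ℝ, X = (Y : ℝ) + 2 := ⟨_, rfl⟩
  have hX2 : (2 : ℝ) ≤ X := by rw [hXd]; linarith
  have hX1 : (1 : ℝ) ≤ X := by linarith
  have hX0 : (0 : ℝ) ≤ X := by linarith
  have hXC : ((Y : ℝ) + 1) ^ A1 ≤ X ^ A1 :=
    pow_le_pow_left₀ (by positivity) (by rw [hXd]; linarith) _
  have cast_bd : ∀ a : ℤ, |a| ≤ ((Y : ℤ) + 1) ^ A1 → ((|a| : ℤ) : ℝ) ≤ X ^ A1 := by
    intro a ha
    refine le_trans ?_ hXC
    exact_mod_cast ha
  have hmX : ∀ l, ((|mm l| : ℤ) : ℝ) ≤ X ^ A1 := fun l => cast_bd _ (hmb l)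
  have hVX : ∀ j l, ((|V j l| : ℤ) : ℝ) ≤ X ^ A1 := fun j l => cast_bd _ (hVb j l)
  have hDcX : (Dc : ℝ) ≤ X ^ A1 := by
    refine le_trans ?_ hXC
    exact_mod_cast hDb
  have hD1X : (D₁ : ℝ) ≤ X ^ A1 := by
    refine le_trans ?_ hXC
    exact_mod_cast hD1b
  obtain ⟨D, hD⟩ : ∃ D : ℕ, D = Dc * D₁ := ⟨_, rfl⟩
  have hDne : D ≠ 0 := by
    rw [hD]
    exact mul_ne_zero hD0 hD10
  have hDX : (D : ℝ) ≤ X ^ (2 * A1) := by
    rw [hD]
    push_cast
    calc (Dc : ℝ) * D₁ ≤ X ^ A1 * X ^ A1 := mul_le_mul hDcX hD1X (by positivity) (by positivity)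
      _ = X ^ (2 * A1) := by ring
  have back : ∀ (a : ℤ) (A : ℕ), A ≤ C → ((|a| : ℤ) : ℝ) ≤ X ^ A → |a| ≤ ((Y : ℤ) + 2) ^ C := by
    intro a A hA ha
    have h1 : ((|a| : ℤ) : ℝ) ≤ X ^ C := ha.trans (pow_le_pow_right₀ hX1 hA)
    rw [hXd] at h1
    exact_mod_cast h1
  have coe_vk : ∀ c : Fin k → ℤ, ((vk α c : K₀) : K) = vk (α : K) c := fun c =>
    map_vk (algebraMap K₀ K) α c
  have hbK : ∀ j, ((vk α (V j) : K₀) : K) = (D : K) * y j := by
    intro j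
    rw [coe_vk, hD]
    have h1 := hV j
    push_cast
    rw [mul_assoc]
    exact h1.symm
  -- the values are small
  have hrootv : ∀ τ : K₀ →+* ℂ, τ α ^ k + vk (τ α) mm = 0 := by
    intro τ
    have h1 := congrArg τ hroot
    rw [map_add, map_pow, map_zero] at h1
    rw [← map_vk τ α mm]
    exact h1
  have hατ : ∀ τ : K₀ →+* ℂ, ‖τ α‖ ≤ X ^ A2 := fun τ => by
    rw [hA2]
    exact gen_bound hk1 hk X hX2 (τ α) mm (hrootv τ) hmX
  have hvalτ : ∀ (τ : K₀ →+* ℂ) (j : Fin P), ‖τ (vk α (V j))‖ ≤ X ^ A4 := by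
    intro τ j
    rw [map_vk, hA4]
    exact val_bound hk X hX2 (τ α) (V j) (hατ τ) (hVX j)
  have hαint : IsIntegral ℤ α := isIntegral_root α mm hroot
  have hvint : ∀ c : Fin k → ℤ, IsIntegral ℤ (vk α c : K₀) := fun c => isIntegral_vk α hαint c
  -- the exponents
  have hS : ∀ i, ∑ j, e i j + (r - 1) * ∑ j, e₀ j ≤ r * M := by
    intro i
    obtain ⟨q, rfl⟩ : ∃ q, r = q + 1 := ⟨r - 1, by omega⟩
    rw [Nat.add_sub_cancel]
    have h1 := heM i
    have h2 : q * ∑ j, e₀ j ≤ q * M := Nat.mul_le_mul_left _ he0M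
    nlinarith
  have hSE : ∀ i, ∑ j, (e i j + (r - 1) * e₀ j) = ∑ j, e i j + (r - 1) * ∑ j, e₀ j := by
    intro i
    rw [Finset.sum_add_distrib, Finset.mul_sum]
  -- the equation over `K₀`
  obtain ⟨F, hF⟩ : ∃ F : K₀, F = ∑ i, ((v ^ (r - 1) * u i : ℤ) : K₀) *
      ((D : K₀) ^ (r * M - (∑ j, e i j + (r - 1) * ∑ j, e₀ j)) *
        ∏ j, (vk α (V j)) ^ (e i j + (r - 1) * e₀ j)) := ⟨_, rfl⟩
  have hFG : (F : K) = ((1 : K₀) : K) * ((D : K) ^ M * v * (∏ j, y j ^ e₀ j) * z) ^ r := by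
    rw [← hom_eq y z u v e e₀ r M D hr hS heq, hF]
    push_cast
    rw [one_mul]
    refine Finset.sum_congr rfl fun i _ => ?_
    congr 2
    refine Finset.prod_congr rfl fun j _ => ?_
    rw [← hbK]
  obtain ⟨zt, hzt⟩ := norm_eq K₀ F 1 _ r hr hFG
  obtain ⟨e', he⟩ : ∃ e', e' = Module.finrank K₀ K := ⟨_, rfl⟩
  rw [← he, one_pow, one_mul] at hzt
  have he1 : 1 ≤ e' := by
    rw [he]
    exact Module.finrank_pos
  have heκ : e' ≤ κ := by
    have h1 := Module.finrank_mul_finrank ℚ K₀ K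
    have h2 : 1 ≤ Module.finrank ℚ K₀ := Module.finrank_pos
    rw [← he] at h1
    calc e' = 1 * e' := (one_mul e').symm
      _ ≤ Module.finrank ℚ K₀ * e' := Nat.mul_le_mul_right _ h2
      _ = Module.finrank ℚ K := h1
      _ ≤ κ := hK
  have intZ : ∀ a : ℤ, IsIntegral ℤ (a : K₀) := fun a =>
    isIntegral_algebraMap (R := ℤ) (A := K₀) (x := a)
  have intN : IsIntegral ℤ (D : K₀) := by
    have := intZ (D : ℤ)
    rwa [Int.cast_natCast] at this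
  have hztint : IsIntegral ℤ zt := by
    refine IsIntegral.of_pow (n := r) (by omega) ?_
    rw [hzt]
    refine IsIntegral.pow ?_ _
    rw [hF]
    exact IsIntegral.sum _ fun i _ => (intZ _).mul ((intN.pow _).mul
      (IsIntegral.prod _ fun j _ => (hvint _).pow _))
  -- size of `zt`
  have hUr : (1 : ℝ) ≤ U := by exact_mod_cast hU
  have hvU : |(v : ℝ)| ≤ U := by
    have : ((|v| : ℤ) : ℝ) ≤ U := by exact_mod_cast hv
    rwa [Int.cast_abs] at this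
  have huU : ∀ i, |(u i : ℝ)| ≤ U := by
    intro i
    have : ((|u i| : ℤ) : ℝ) ≤ U := by exact_mod_cast hu i
    rwa [Int.cast_abs] at this
  have hcU : ∀ i, ‖((v ^ (r - 1) * u i : ℤ) : ℂ)‖ ≤ (U : ℝ) ^ r := by
    intro i
    rw [Complex.norm_intCast]
    push_cast
    rw [abs_mul, abs_pow]
    calc |(v : ℝ)| ^ (r - 1) * |(u i : ℝ)| ≤ (U : ℝ) ^ (r - 1) * U :=
          mul_le_mul (pow_le_pow_left₀ (abs_nonneg _) hvU _) (huU i) (abs_nonneg _) (by positivity)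
      _ = (U : ℝ) ^ r := by
          rw [← pow_succ, Nat.sub_add_cancel hr]
  obtain ⟨T, hT⟩ : ∃ T, T = (M + 1) * (r + 1) := ⟨_, rfl⟩
  have hT1 : 1 ≤ T := by
    rw [hT]
    exact Nat.one_le_iff_ne_zero.2 (by positivity)
  have hTr : r ≤ T := by
    rw [hT]
    nlinarith [Nat.zero_le M, Nat.zero_le r]
  have hTM : r * M ≤ T := by
    rw [hT]
    nlinarith [Nat.zero_le M, Nat.zero_le r]
  have hUX1 : (1 : ℝ) ≤ U * X := one_le_mul_of_one_le_of_one_le hUr hX1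
  have hFτ : ∀ τ : K₀ →+* ℂ, ‖τ F‖ ≤ (U * X) ^ (A5 * T) := by
    intro τ
    rw [hF, map_sum]
    have h1 : ∀ i, ‖τ (((v ^ (r - 1) * u i : ℤ) : K₀) *
      ((D : K₀) ^ (r * M - (∑ j, e i j + (r - 1) * ∑ j, e₀ j)) *
        ∏ j, (vk α (V j)) ^ (e i j + (r - 1) * e₀ j)))‖ ≤
        (U : ℝ) ^ r * ((X ^ (2 * A1)) ^ (r * M) * (X ^ A4) ^ (r * M)) := by
      intro i
      rw [map_mul, map_mul, map_prod, map_pow, norm_mul, norm_mul, norm_pow, map_intCast,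
        map_natCast]
      refine mul_le_mul (hcU i) ?_ (by positivity) (by positivity)
      refine mul_le_mul ?_ ?_ (by positivity) (by positivity)
      · rw [Complex.norm_natCast]
        calc (D : ℝ) ^ (r * M - (∑ j, e i j + (r - 1) * ∑ j, e₀ j)) ≤
              (X ^ (2 * A1)) ^ (r * M - (∑ j, e i j + (r - 1) * ∑ j, e₀ j)) :=
                pow_le_pow_left₀ (by positivity) hDX _
          _ ≤ (X ^ (2 * A1)) ^ (r * M) :=
                pow_le_pow_right₀ (one_le_pow₀ hX1) (Nat.sub_le _ _)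
      · simp only [map_pow]
        exact prod_bound _ _ _ (one_le_pow₀ hX1) (fun j => hvalτ τ j) _ (by rw [hSE]; exact hS i)
    calc ‖∑ i, τ (((v ^ (r - 1) * u i : ℤ) : K₀) *
      ((D : K₀) ^ (r * M - (∑ j, e i j + (r - 1) * ∑ j, e₀ j)) *
        ∏ j, (vk α (V j)) ^ (e i j + (r - 1) * e₀ j)))‖ ≤
          ∑ i, ‖τ (((v ^ (r - 1) * u i : ℤ) : K₀) *
      ((D : K₀) ^ (r * M - (∑ j, e i j + (r - 1) * ∑ j, e₀ j)) *
        ∏ j, (vk α (V j)) ^ (e i j + (r - 1) * e₀ j)))‖ := norm_sum_le _ _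
      _ ≤ ∑ i : Fin n, (U : ℝ) ^ r * ((X ^ (2 * A1)) ^ (r * M) * (X ^ A4) ^ (r * M)) :=
            Finset.sum_le_sum fun i _ => h1 i
      _ = n * ((U : ℝ) ^ r * ((X ^ (2 * A1)) ^ (r * M) * (X ^ A4) ^ (r * M))) := by simp
      _ ≤ X ^ n * ((U : ℝ) ^ r * ((X ^ (2 * A1)) ^ (r * M) * (X ^ A4) ^ (r * M))) :=
            mul_le_mul_of_nonneg_right (nat_le_pow X hX2 n) (by positivity)
      _ = (U : ℝ) ^ r * X ^ (n + (2 * A1 + A4) * (r * M)) := by
            rw [← pow_mul, ← pow_mul]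
            ring
      _ ≤ (U : ℝ) ^ (A5 * T) * X ^ (A5 * T) := by
            refine mul_le_mul (pow_le_pow_right₀ hUr ?_) (pow_le_pow_right₀ hX1 ?_)
                  (by positivity) (by positivity)
            · rw [hA5]
              nlinarith [Nat.zero_le (A4 * T), Nat.zero_le (A1 * T), Nat.zero_le (n * T)]
            · rw [hA5]
              have h5 : n ≤ n * T := Nat.le_mul_of_pos_right n (by omega)
              have h6 : (2 * A1 + A4) * (r * M) ≤ (2 * A1 + A4) * T := Nat.mul_le_mul_left _ hTM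
              nlinarith
      _ = (U * X) ^ (A5 * T) := by rw [mul_pow]
  have hztτ : ∀ τ : K₀ →+* ℂ, ‖τ zt‖ ≤ (U * X) ^ (A5 * κ * T) := by
    intro τ
    have h1 : ‖τ zt‖ ^ r ≤ (U * X) ^ (A5 * κ * T) := by
      rw [← norm_pow, ← map_pow, hzt, map_pow, norm_pow]
      calc ‖τ F‖ ^ e' ≤ ((U * X) ^ (A5 * T)) ^ e' :=
            pow_le_pow_left₀ (by positivity) (hFτ τ) _
        _ ≤ ((U * X) ^ (A5 * T)) ^ κ :=
            pow_le_pow_right₀ (one_le_pow₀ hUX1) heκ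
        _ = (U * X) ^ (A5 * κ * T) := by
            rw [← pow_mul]
            congr 1
            ring
    rcases le_total ‖τ zt‖ 1 with h3 | h3
    · exact h3.trans (one_le_pow₀ hUX1)
    · exact (le_self_pow₀ h3 (by omega)).trans h1
  obtain ⟨ζ0, hζ1, hζ2⟩ := hint zt _ hztint hztτ
  -- the code
  have hα : ∀ c : Fin k → ℤ, σ (((vk α c : K₀)) : K) = vl (σ (α : K)) c := by
    intro c
    rw [coe_vk, map_vk, vl_eq]
  have hAC1 : A1 ≤ C := by omega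
  have hAC2 : 2 * A1 ≤ C := by omega
  refine ⟨{
    k := k
    α := σ (α : K)
    D := D
    mm := mm
    vb := V
    hk1 := hk1
    hk := hk
    D0 := hDne
    Dbd := ?_
    mbd := fun l => back _ _ hAC1 (hmX l)
    vbbd := fun i l => back _ _ hAC1 (hVX i l)
    root := ?_
    lin := ?_
    evb := ?_ }, e', fun l => (D₁ : ℤ) ^ e' * (Dc : ℤ) ^ (e' - 1) * ζ0 l, he1, heκ, ?_, ?_⟩
  · have h1 : (D : ℝ) ≤ X ^ C := hDX.trans (pow_le_pow_right₀ hX1 hAC2)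
    rw [hXd] at h1
    exact_mod_cast h1
  · have := hrootv (σ.comp (algebraMap K₀ K))
    exact this
  · intro c hc
    rw [← hα, map_eq_zero] at hc
    refine hlin c ?_
    have : (vk α c : K₀) = 0 := by
      exact_mod_cast hc
    exact this
  · intro i
    rw [← hα, hbK, map_mul, map_natCast]
  · intro l
    have h1 : ((|(D₁ : ℤ) ^ e' * (Dc : ℤ) ^ (e' - 1) * ζ0 l| : ℤ) : ℝ) ≤
        (U * X) ^ (C * T) := by
      push_cast
      rw [abs_mul, abs_mul, abs_pow, abs_pow, Nat.abs_cast, Nat.abs_cast, ← Int.cast_abs]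
      have h2 : (Dc : ℝ) ^ (e' - 1) ≤ X ^ (A1 * κ) := by
        calc (Dc : ℝ) ^ (e' - 1) ≤ (X ^ A1) ^ (e' - 1) := pow_le_pow_left₀ (by positivity) hDcX _
          _ ≤ (X ^ A1) ^ κ := pow_le_pow_right₀ (one_le_pow₀ hX1) (by omega)
          _ = X ^ (A1 * κ) := by rw [pow_mul]
      have h2' : (D₁ : ℝ) ^ e' ≤ X ^ (A1 * κ) := by
        calc (D₁ : ℝ) ^ e' ≤ (X ^ A1) ^ e' := pow_le_pow_left₀ (by positivity) hD1X _
          _ ≤ (X ^ A1) ^ κ := pow_le_pow_right₀ (one_le_pow₀ hX1) (by omega)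
          _ = X ^ (A1 * κ) := by rw [pow_mul]
      have h3 : ((|ζ0 l| : ℤ) : ℝ) ≤ (U * X) ^ (A5 * κ * T) * X ^ A1 :=
        (hζ2 l).trans (mul_le_mul_of_nonneg_left hXC (by positivity))
      have hXU : X ≤ U * X := le_mul_of_one_le_left hX0 hUr
      calc (D₁ : ℝ) ^ e' * (Dc : ℝ) ^ (e' - 1) * ((|ζ0 l| : ℤ) : ℝ) ≤
            X ^ (A1 * κ) * X ^ (A1 * κ) * ((U * X) ^ (A5 * κ * T) * X ^ A1) :=
              mul_le_mul (mul_le_mul h2' h2 (by positivity) (by positivity)) h3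
                (by exact_mod_cast abs_nonneg _) (by positivity)
        _ = X ^ (2 * A1 * κ + A1) * (U * X) ^ (A5 * κ * T) := by
              rw [pow_add, mul_assoc 2 A1 κ, two_mul, pow_add]
              ring
        _ ≤ (U * X) ^ (2 * A1 * κ + A1) * (U * X) ^ (A5 * κ * T) := by
              refine mul_le_mul_of_nonneg_right (pow_le_pow_left₀ hX0 hXU _) (by positivity)
        _ = (U * X) ^ (2 * A1 * κ + A1 + A5 * κ * T) := by rw [← pow_add]
        _ ≤ (U * X) ^ (C * T) := by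
              refine pow_le_pow_right₀ hUX1 ?_
              have h6 : 2 * A1 * κ + A1 ≤ (2 * A1 * κ + A1) * T :=
                Nat.le_mul_of_pos_right _ (by omega)
              have h7 : (2 * A1 * κ + A1) * T + A5 * κ * T ≤ C * T := by
                rw [← Nat.add_mul]
                exact Nat.mul_le_mul_right _ (by omega)
              omega
    rw [hXd, hT] at h1
    exact_mod_cast h1
  · -- the equation
    have hζ : vl (σ (α : K)) (fun l => (D₁ : ℤ) ^ e' * (Dc : ℤ) ^ (e' - 1) * ζ0 l) =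
        σ ((((D : K₀) ^ e' * zt : K₀)) : K) := by
      rw [← hα]
      congr 2
      have h1 : (vk α (fun l => (D₁ : ℤ) ^ e' * (Dc : ℤ) ^ (e' - 1) * ζ0 l) : K₀) =
          (D₁ : K₀) ^ e' * (Dc : K₀) ^ (e' - 1) * vk α ζ0 := by
        simp only [vk, Finset.mul_sum]
        refine Finset.sum_congr rfl fun l _ => ?_
        push_cast
        ring
      have h2 : vk α ζ0 = (Dc : K₀) * zt := hζ1.symm
      rw [h1, h2, hD]
      obtain ⟨j, rfl⟩ : ∃ j, e' = j + 1 := ⟨e' - 1, by omega⟩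
      rw [Nat.add_sub_cancel]
      push_cast
      ring
    change (∑ i, ((v ^ (r - 1) * u i : ℤ) : ℂ) *
      ((D : ℂ) ^ (r + r * M - (∑ j, e i j + (r - 1) * ∑ j, e₀ j)) *
        ∏ j, vl (σ (α : K)) (V j) ^ (e i j + (r - 1) * e₀ j))) ^ e' =
        vl (σ (α : K)) (fun l => (D₁ : ℤ) ^ e' * (Dc : ℤ) ^ (e' - 1) * ζ0 l) ^ r
    rw [hζ]
    have h3 : (((D : K₀) ^ e' * zt) ^ r : K₀) =
        (∑ i, ((v ^ (r - 1) * u i : ℤ) : K₀) *
      ((D : K₀) ^ (r + r * M - (∑ j, e i j + (r - 1) * ∑ j, e₀ j)) *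
        ∏ j, (vk α (V j)) ^ (e i j + (r - 1) * e₀ j))) ^ e' := by
      have h4 : (∑ i, ((v ^ (r - 1) * u i : ℤ) : K₀) *
      ((D : K₀) ^ (r + r * M - (∑ j, e i j + (r - 1) * ∑ j, e₀ j)) *
        ∏ j, (vk α (V j)) ^ (e i j + (r - 1) * e₀ j))) =
          (D : K₀) ^ r * F := by
        rw [hF, Finset.mul_sum _ _ ((D : K₀) ^ r)]
        refine Finset.sum_congr rfl fun i _ => ?_
        rw [Nat.add_sub_assoc (hS i), pow_add]
        ring
      rw [h4, mul_pow, hzt, mul_pow, ← pow_mul, ← pow_mul, mul_comm e' r]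
    have h5 := congrArg (fun t : K₀ => σ (t : K)) h3
    have h6 : σ ((((D : K₀) ^ e' * zt : K₀)) : K) ^ r =
        σ (((((D : K₀) ^ e' * zt) ^ r : K₀)) : K) := by
      rw [← map_pow]
      rfl
    rw [h6, h5]
    have h7 : ∀ c : Fin k → ℤ, vl (σ (α : K)) c = (σ.comp (algebraMap K₀ K)) (vk α c) := by
      intro c
      rw [← hα]
      rfl
    have h8 : ∀ t : K₀, σ (t : K) = (σ.comp (algebraMap K₀ K)) t := fun t => rfl
    simp only [h7]
    rw [h8]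
    simp only [map_pow, map_mul, map_sum, map_prod, map_intCast, map_natCast]

end Pool.Agent.N999.HK
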